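import Mathlib

set_option autoImplicit false

namespace Pool.Agent.Work.MP_91c91a_lc.Un

/-- walks of length `t` -/
def Wk {V : Type} (E : V → V → Prop) : ℕ → V → V → Prop
  | 0, x, y => x = y
  | t + 1, x, y => ∃ z, Wk E t x z ∧ E z y

variable {V : Type} {E : V → V → Prop}

theorem wk_zero (x y : V) : Wk E 0 x y ↔ x = y := Iff.rfl

theorem wk_succ (t : ℕ) (x y : V) : Wk E (t + 1) x y ↔ ∃ z, Wk E t x z ∧ E z y := Iff.rfl

theorem Wk.trans {a b : ℕ} {x y z : V} (h1 : Wk E a x y) (h2 : Wk E b y z) : Wk E (a + b) x z := by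
  induction b generalizing z with
  | zero => rw [wk_zero] at h2; subst h2; exact h1
  | succ b ih =>
    obtain ⟨w, h3, h4⟩ := h2
    exact ⟨w, ih h3, h4⟩

theorem Wk.single {x y : V} (h : E x y) : Wk E 1 x y := ⟨x, rfl, h⟩

/-- a walk given by a function -/
def IsW (E : V → V → Prop) (p : ℕ → V) (t : ℕ) : Prop := ∀ i < t, E (p i) (p (i + 1))

theorem IsW.mono {p : ℕ → V} {t s : ℕ} (h : IsW E p t) (hs : s ≤ t) : IsW E p s :=
  fun i hi => h i (hi.trans_le hs)

theorem IsW.wk {p : ℕ → V} {t : ℕ} (h : IsW E p t) {a b : ℕ} (hab : a ≤ b) (hb : b ≤ t) :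
    Wk E (b - a) (p a) (p b) := by
  induction b, hab using Nat.le_induction with
  | base => rw [Nat.sub_self]; exact rfl
  | succ b hab ih =>
    have h1 := ih (by omega)
    have h2 := h b (by omega)
    rw [Nat.succ_sub hab]
    exact ⟨_, h1, h2⟩

theorem Wk.exists_fun {t : ℕ} {x y : V} (h : Wk E t x y) :
    ∃ p : ℕ → V, p 0 = x ∧ p t = y ∧ IsW E p t := by
  classical
  induction t generalizing y with
  | zero =>
    rw [wk_zero] at h
    exact ⟨fun _ => x, rfl, h, fun i hi => absurd hi (Nat.not_lt_zero i)⟩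
  | succ t ih =>
    obtain ⟨z, h1, h2⟩ := h
    obtain ⟨p, p0, pt, hp⟩ := ih h1
    refine ⟨fun i => if i ≤ t then p i else y, ?_, ?_, ?_⟩
    · simp [p0]
    · simp
    · intro i hi
      rcases Nat.lt_or_ge i t with h3 | h3
      · have h4 : i + 1 ≤ t := h3
        simp only [h3.le, h4, if_true]
        exact hp i h3
      · have h4 : i = t := by omega
        subst h4
        simp only [le_refl, if_true, Nat.not_succ_le_self, if_false]
        rw [pt]; exact h2

end Pool.Agent.Work.MP_91c91a_lc.Un
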