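import Pool.Agent.Work.MP_91c91a_lc.Un.Hall
import Pool.Agent.Work.MP_91c91a_lc.Un.Walk
import Pool.Agent.Work.MP_91c91a_lc.Vals

set_option autoImplicit false

namespace Pool.Agent.Work.MP_91c91a_lc.Un

open Finset

theorem rpath_rc {Q Γ : Type} (T : Q → Γ → Q → Prop) (a0 : Γ) (hΓ : ∀ a, a = a0) (s : Q)
    (w : List Γ) : ∀ q, RPath T s w q ↔ Rc (fun x y => T x a0 y) {s} w.length q := by
  induction w using List.reverseRecOn with
  | nil =>
    intro q
    constructor
    · intro h; exact Eq.symm h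
    · intro h; exact Eq.symm h
  | append_singleton w a ih =>
    intro q
    rw [RPath_append, List.length_append, List.length_singleton]
    constructor
    · rintro ⟨r, h1, r', h2, h3⟩
      rw [RPath_nil] at h3
      subst h3
      refine ⟨r, (ih r).1 h1, ?_⟩
      rw [hΓ a] at h2; exact h2
    · rintro ⟨r, h1, h2⟩
      refine ⟨r, (ih r).2 h1, q, ?_, rfl⟩
      rw [hΓ a]; exact h2

section Fin

variable {W Γ : Type} [Fintype W] [DecidableEq W] (a0 : Γ) (k : ℕ) (δ : Finset (W × W)) (I : Set W)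

/-- transitions of the automaton: a chain of length `k`, then the sparse edges -/
noncomputable def lδ : Finset ((Fin (k + 1) ⊕ W) × Γ × (Fin (k + 1) ⊕ W)) := by
  classical
  exact
    (univ : Finset (Fin k)).image (fun i => (.inl i.castSucc, a0, .inl i.succ)) ∪
    ((univ.filter (fun x : W => ∃ i ∈ I, (i, x) ∈ δ)).image
      (fun x => (.inl (Fin.last k), a0, .inr x)) ∪
    δ.image (fun e => (.inr e.1, a0, .inr e.2)))

theorem card_lδ : (lδ a0 k δ I).card ≤ k + Fintype.card W + δ.card := by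
  classical
  unfold lδ
  refine (card_union_le _ _).trans ?_
  have h1 : ((univ : Finset (Fin k)).image (fun i => ((.inl i.castSucc, a0, .inl i.succ) :
      (Fin (k + 1) ⊕ W) × Γ × (Fin (k + 1) ⊕ W)))).card ≤ k :=
    card_image_le.trans_eq (by rw [card_univ, Fintype.card_fin])
  have h2 : ((univ.filter (fun x : W => ∃ i ∈ I, (i, x) ∈ δ)).image
      (fun x => ((.inl (Fin.last k), a0, .inr x) :
      (Fin (k + 1) ⊕ W) × Γ × (Fin (k + 1) ⊕ W)))).card ≤ Fintype.card W :=
    card_image_le.trans (card_le_univ _)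
  have h3 : (δ.image (fun e => ((.inr e.1, a0, .inr e.2) :
      (Fin (k + 1) ⊕ W) × Γ × (Fin (k + 1) ⊕ W)))).card ≤ δ.card := card_image_le
  have h4 := card_union_le ((univ.filter (fun x : W => ∃ i ∈ I, (i, x) ∈ δ)).image
      (fun x => ((.inl (Fin.last k), a0, .inr x) : (Fin (k + 1) ⊕ W) × Γ × (Fin (k + 1) ⊕ W))))
    (δ.image (fun e => ((.inr e.1, a0, .inr e.2) : (Fin (k + 1) ⊕ W) × Γ × (Fin (k + 1) ⊕ W))))
  omega

theorem mem_lδ_inl (p : Fin (k + 1) ⊕ W) (i : Fin (k + 1)) :
    (p, a0, .inl i) ∈ lδ a0 k δ I ↔ ∃ j : Fin (k + 1), p = .inl j ∧ i.1 = j.1 + 1 := by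
  classical
  unfold lδ
  simp only [mem_union, mem_image, mem_filter, mem_univ, true_and, Prod.mk.injEq,
    reduceCtorEq, and_false, exists_false, or_false]
  constructor
  · rintro ⟨j, rfl, h⟩
    have h2 := Sum.inl_injective h
    exact ⟨j.castSucc, rfl, by rw [← h2]; simp⟩
  · rintro ⟨j, rfl, h⟩
    have hj : j.1 < k := by have := i.2; omega
    exact ⟨⟨j.1, hj⟩, rfl, congrArg Sum.inl (Fin.ext (by simp [h]))⟩

theorem mem_lδ_inr (p : Fin (k + 1) ⊕ W) (x : W) :
    (p, a0, .inr x) ∈ lδ a0 k δ I ↔ (p = .inl (Fin.last k) ∧ ∃ i ∈ I, (i, x) ∈ δ) ∨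
      ∃ z, p = .inr z ∧ (z, x) ∈ δ := by
  classical
  unfold lδ
  simp only [mem_union, mem_image, mem_filter, mem_univ, true_and, Prod.mk.injEq,
    reduceCtorEq, and_false, exists_false, false_or, Prod.exists]
  constructor
  · rintro (⟨y, h1, rfl, h2⟩ | ⟨y, z, h1, rfl, h2⟩)
    · have h3 := Sum.inr_injective h2
      subst h3
      exact Or.inl ⟨rfl, h1⟩
    · have h3 := Sum.inr_injective h2
      subst h3
      exact Or.inr ⟨y, rfl, h1⟩
  · rintro (⟨rfl, h1⟩ | ⟨z, rfl, h1⟩)
    · exact Or.inl ⟨x, h1, rfl, rfl⟩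
    · exact Or.inr ⟨z, x, h1, rfl, rfl⟩

theorem run_lδ (t : ℕ) :
    (∀ i : Fin (k + 1), Rc (fun p q => (p, a0, q) ∈ lδ a0 k δ I) {.inl 0} t (.inl i) ↔ i.1 = t) ∧
    (∀ x : W, Rc (fun p q => (p, a0, q) ∈ lδ a0 k δ I) {.inl 0} t (.inr x) ↔
      ∃ j, 1 ≤ j ∧ t = k + j ∧ Rc (fun a b => (a, b) ∈ δ) I j x) := by
  induction t with
  | zero =>
    constructor
    · intro i
      change (Sum.inl i : Fin (k + 1) ⊕ W) ∈ ({.inl 0} : Set (Fin (k + 1) ⊕ W)) ↔ _
      rw [Set.mem_singleton_iff]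
      constructor
      · intro h; rw [Sum.inl_injective h]; rfl
      · intro h; exact congrArg Sum.inl (Fin.ext h)
    · intro x
      change (Sum.inr x : Fin (k + 1) ⊕ W) ∈ ({.inl 0} : Set (Fin (k + 1) ⊕ W)) ↔ _
      rw [Set.mem_singleton_iff]
      constructor
      · intro h; exact absurd h (by simp)
      · rintro ⟨j, h1, h2, -⟩; omega
  | succ t ih =>
    obtain ⟨ih1, ih2⟩ := ih
    constructor
    · intro i
      constructor
      · rintro ⟨z, h1, h2⟩
        obtain ⟨j, rfl, h3⟩ := (mem_lδ_inl a0 k δ I z i).1 h2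
        rw [ih1 j] at h1
        omega
      · intro h
        have ht : t < k + 1 := by have := i.2; omega
        exact ⟨.inl ⟨t, ht⟩, (ih1 _).2 rfl, (mem_lδ_inl a0 k δ I _ i).2 ⟨⟨t, ht⟩, rfl, h⟩⟩
    · intro x
      constructor
      · rintro ⟨z, h1, h2⟩
        rcases (mem_lδ_inr a0 k δ I z x).1 h2 with ⟨rfl, i, h3, h4⟩ | ⟨y, rfl, h3⟩
        · rw [ih1] at h1
          have h5 : k = t := h1
          exact ⟨1, le_rfl, by omega, i, h3, h4⟩
        · rw [ih2] at h1
          obtain ⟨j, h4, h5, h6⟩ := h1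
          exact ⟨j + 1, by omega, by omega, y, h6, h3⟩
      · rintro ⟨j, h1, h2, h3⟩
        obtain ⟨j, rfl⟩ : ∃ j', j = j' + 1 := ⟨j - 1, by omega⟩
        obtain ⟨y, h4, h5⟩ := h3
        rcases Nat.eq_zero_or_pos j with rfl | hj
        · refine ⟨.inl (Fin.last k), (ih1 _).2 ?_, (mem_lδ_inr a0 k δ I _ x).2 (Or.inl ⟨rfl, y, h4, h5⟩)⟩
          rw [Fin.val_last]; omega
        · exact ⟨.inr y, (ih2 y).2 ⟨j, hj, by omega, h4⟩, (mem_lδ_inr a0 k δ I _ x).2
            (Or.inr ⟨y, rfl, h5⟩)⟩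

end Fin

/-- over a one letter alphabet, `n` states give at most `3 n` transitions -/
theorem tc_unary_lin {V Γ : Type} [Fintype V] (a0 : Γ) (hΓ : ∀ a, a = a0) (T : V → Γ → V → Prop)
    (s : V) (F : Set V) :
    tc ({w | ∃ f ∈ F, RPath T s w f} : Language Γ) ≤ 3 * Fintype.card V := by
  classical
  obtain ⟨W, _, E', I', F', k, σ, h1, h2, h3⟩ := exists_perm (Fintype.card V) V
    (fun x y => T x a0 y) {s} F rfl
  obtain ⟨δ, h4, h5⟩ := exists_sparse E' I' σ h2
  let A : FA Γ := ⟨Fin (k + 1) ⊕ W, inferInstance, .inl 0,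
    fun q => match q with
      | .inl i => Lg (fun x y => T x a0 y) {s} F i.1
      | .inr x => x ∈ F', lδ a0 k δ I'⟩
  have hlang : A.lang = {w | ∃ f ∈ F, RPath T s w f} := by
    ext w
    rw [FA.mem_lang]
    have hL : w ∈ ({w | ∃ f ∈ F, RPath T s w f} : Language Γ) ↔
        Lg (fun x y => T x a0 y) {s} F w.length := by
      constructor
      · rintro ⟨f, hf, h⟩
        exact ⟨f, hf, (rpath_rc T a0 hΓ s w f).1 h⟩
      · rintro ⟨f, hf, h⟩
        exact ⟨f, hf, (rpath_rc T a0 hΓ s w f).2 h⟩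
    refine Iff.trans ?_ hL.symm
    obtain ⟨r1, r2⟩ := run_lδ a0 k δ I' w.length
    constructor
    · rintro ⟨q, hq, h⟩
      have h6 := (rpath_rc A.T a0 hΓ A.start w q).1 h
      match q, hq, h6 with
      | .inl i, hq, h6 =>
        have h7 := (r1 i).1 h6
        have h8 : Lg (fun x y => T x a0 y) {s} F i.1 := hq
        rwa [h7] at h8
      | .inr x, hq, h6 =>
        obtain ⟨j, h7, h8, h9⟩ := (r2 x).1 h6
        rw [h8, add_comm, h3]
        exact ⟨x, hq, (h5 j x).1 h9⟩
    · intro h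
      rcases Nat.lt_or_ge w.length (k + 1) with hw | hw
      · exact ⟨.inl ⟨w.length, hw⟩, h, (rpath_rc A.T a0 hΓ A.start w _).2 ((r1 _).2 rfl)⟩
      · obtain ⟨j, hj⟩ : ∃ j, w.length = j + k := ⟨w.length - k, by omega⟩
        rw [hj, h3] at h
        obtain ⟨x, hx, h6⟩ := h
        exact ⟨.inr x, hx, (rpath_rc A.T a0 hΓ A.start w _).2
          ((r2 x).2 ⟨j, by omega, by omega, (h5 j x).2 h6⟩)⟩
  refine (tc_le_of_eq A hlang).trans ((card_lδ a0 k δ I').trans ?_)
  omega

theorem g_one_lin (m : ℕ) : g 1 m ≤ 3 * (2 * m + 1) := by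
  obtain ⟨Γ, S, _, _, h, L, hΓ, hL, hm, ht⟩ := (isGreatest_g 1 m).1
  obtain ⟨a0, ha0⟩ := Fintype.card_eq_one_iff.1 hΓ
  obtain ⟨A, hA, hc⟩ := exists_tc (exists_FA_of_regular hL)
  obtain ⟨T, s, F, hT⟩ := exists_indT A h
  subst hA
  rw [← ht, hT, ← hm, ← hc]
  have := tc_unary_lin a0 ha0 T s F
  rwa [Fintype.card_fin] at this

theorem rpath_wk {Q Γ : Type} (T : Q → Γ → Q → Prop) (a0 : Γ) (hΓ : ∀ a, a = a0) (w : List Γ) :
    ∀ p q, RPath T p w q ↔ Wk (fun x y => T x a0 y) w.length p q := by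
  induction w using List.reverseRecOn with
  | nil => intro p q; exact Iff.rfl
  | append_singleton w a ih =>
    intro p q
    rw [RPath_append, List.length_append, List.length_singleton, wk_succ]
    constructor
    · rintro ⟨r, h1, r', h2, h3⟩
      rw [RPath_nil] at h3
      subst h3
      refine ⟨r, (ih p r).1 h1, ?_⟩
      rw [hΓ a] at h2; exact h2
    · rintro ⟨r, h1, h2⟩
      refine ⟨r, (ih p r).2 h1, q, ?_, rfl⟩
      rw [hΓ a]; exact h2

/-- the language with one word -/
theorem tc_single (m : ℕ) : (∃ A : FA Unit, A.lang = ({List.replicate m ()} : Set (List Unit))) ∧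
    tc ({List.replicate m ()} : Set (List Unit)) = m := by
  classical
  let A : FA Unit := ⟨Fin (m + 1), inferInstance, 0, {Fin.last m},
    (univ : Finset (Fin m)).image (fun i => (i.castSucc, (), i.succ))⟩
  have hT : ∀ p q : Fin (m + 1), A.T p () q ↔ q.1 = p.1 + 1 := by
    intro p q
    change (p, (), q) ∈ (univ : Finset (Fin m)).image (fun i => (i.castSucc, (), i.succ)) ↔ _
    rw [mem_image]
    constructor
    · rintro ⟨i, -, hi⟩
      simp only [Prod.mk.injEq, true_and] at hi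
      obtain ⟨rfl, rfl⟩ := hi
      simp
    · intro h
      have hp : p.1 < m := by omega
      refine ⟨⟨p.1, hp⟩, mem_univ _, ?_⟩
      simp only [Prod.mk.injEq, true_and]
      exact ⟨Fin.ext rfl, Fin.ext (by simp [h])⟩
  have hW : ∀ (t : ℕ) (q : Fin (m + 1)), Wk (fun x y => A.T x () y) t A.start q ↔ q.1 = t := by
    intro t
    induction t with
    | zero =>
      intro q
      rw [wk_zero]
      constructor
      · intro h; rw [← h]; rfl
      · intro h; exact Fin.ext h.symm
    | succ t ih =>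
      intro q
      rw [wk_succ]
      constructor
      · rintro ⟨z, h1, h2⟩
        rw [(hT z q).1 h2, (ih z).1 h1]
      · intro h
        have ht : t < m + 1 := by have := q.2; omega
        exact ⟨⟨t, ht⟩, (ih _).2 rfl, (hT _ _).2 h⟩
  have hlang : A.lang = ({List.replicate m ()} : Set (List Unit)) := by
    ext w
    rw [FA.mem_lang]
    have hw : w = List.replicate w.length () := List.eq_replicate_of_mem (fun _ _ => rfl)
    constructor
    · rintro ⟨q, hq, h⟩
      have h1 := (hW _ _).1 ((rpath_wk A.T () (fun _ => rfl) w _ _).1 h)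
      have h2 : q = Fin.last m := hq
      rw [h2] at h1
      have h3 : w.length = m := h1.symm
      rw [h3] at hw
      exact hw
    · intro h
      have h2 : w = List.replicate m () := h
      refine ⟨Fin.last m, rfl, (rpath_wk A.T () (fun _ => rfl) w _ _).2 ((hW _ _).2 ?_)⟩
      rw [h2, List.length_replicate]; rfl
  refine ⟨⟨A, hlang⟩, le_antisymm ?_ ?_⟩
  · refine (tc_le_of_eq A hlang).trans (card_image_le.trans_eq ?_)
    rw [card_univ, Fintype.card_fin]
  · obtain ⟨B, hB, hc⟩ := exists_tc ⟨A, hlang⟩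
    rw [← hc]
    have h1 : List.replicate m () ∈ B.lang := by rw [hB]; exact rfl
    obtain ⟨q, hq, h2⟩ := h1
    rw [rpath_wk B.T () (fun _ => rfl), List.length_replicate] at h2
    obtain ⟨p, p0, pm, hp⟩ := h2.exists_fun
    by_contra hcon
    push Not at hcon
    obtain ⟨i, hi, j, hj, hij, he⟩ := exists_ne_map_eq_of_card_lt_of_maps_to
      (s := range m) (t := B.δ) (f := fun i => (p i, (), p (i + 1))) (by rwa [card_range])
      (fun i hi => hp i (mem_range.1 hi))
    have key : ∀ i j, i < j → j < m → p i = p j → False := by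
      intro i j hij hj he
      have h3 := hp.wk (Nat.zero_le i) (by omega : i ≤ m)
      have h4 := hp.wk hj.le le_rfl
      rw [← he] at h4
      have h5 := h3.trans h4
      rw [p0, pm] at h5
      have h6 : List.replicate (i - 0 + (m - j)) () ∈ B.lang := by
        refine ⟨q, hq, (rpath_wk B.T () (fun _ => rfl) _ _ _).2 ?_⟩
        rw [List.length_replicate]; exact h5
      rw [hB] at h6
      have h7 : List.replicate (i - 0 + (m - j)) () = List.replicate m () := h6
      have h8 := congrArg List.length h7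
      rw [List.length_replicate, List.length_replicate] at h8
      omega
    have he' : p i = p j := congrArg (fun t => t.1) he
    rcases Nat.lt_or_gt_of_ne hij with h | h
    · exact key i j h (mem_range.1 hj) he'
    · exact key j i h (mem_range.1 hi) he'.symm

theorem le_g_one (m : ℕ) : m ≤ g 1 m := by
  obtain ⟨⟨A, hA⟩, h2⟩ := tc_single m
  apply (isGreatest_g 1 m).2
  refine ⟨Unit, Unit, inferInstance, inferInstance, MonoidHom.id _,
    ({List.replicate m ()} : Set (List Unit)), rfl, hA ▸ A.isRegular, h2, ?_⟩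
  have : invMor (MonoidHom.id (FreeMonoid Unit)) ({List.replicate m ()} : Set (List Unit)) =
      ({List.replicate m ()} : Set (List Unit)) := rfl
  rw [this]; exact h2

/-- In the unary case the growth is linear. -/
theorem g_one_theta : (fun m : ℕ => (g 1 m : ℝ)) =Θ[Filter.atTop] fun m : ℕ => (m : ℝ) := by
  refine ⟨?_, ?_⟩
  · apply Asymptotics.IsBigO.of_bound 9
    filter_upwards [Filter.eventually_ge_atTop 1] with m hm
    rw [Real.norm_of_nonneg (Nat.cast_nonneg _), Real.norm_of_nonneg (Nat.cast_nonneg _)]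
    have h1 : g 1 m ≤ 9 * m := (g_one_lin m).trans (by omega)
    exact_mod_cast h1
  · apply Asymptotics.IsBigO.of_bound 1
    filter_upwards with m
    rw [Real.norm_of_nonneg (Nat.cast_nonneg _), Real.norm_of_nonneg (Nat.cast_nonneg _), one_mul]
    exact_mod_cast le_g_one m

end Pool.Agent.Work.MP_91c91a_lc.Un
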