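import Mathlib

set_option autoImplicit false

namespace Pool.Agent.Work.MP_91c91a_lc.Un

open Finset

/-- reachable after `t` steps from the set `I` -/
def Rc {V : Type} (E : V → V → Prop) (I : Set V) : ℕ → V → Prop
  | 0, x => x ∈ I
  | t + 1, x => ∃ z, Rc E I t z ∧ E z x

/-- the lengths of the accepted words -/
def Lg {V : Type} (E : V → V → Prop) (I F : Set V) (t : ℕ) : Prop := ∃ f ∈ F, Rc E I t f

section Shrink

variable {V : Type} (E : V → V → Prop) (I F : Set V) (X Y : Finset V)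

/-- the states after one retiming step: a state of `X` is replaced by its next state -/
abbrev SV : Type := {x // x ∉ X} ⊕ {y // y ∈ Y}

/-- edges after retiming -/
def sE : SV X Y → SV X Y → Prop
  | .inl x, .inl x' => E x.1 x'.1
  | .inl x, .inr y => ∃ x' ∈ X, E x.1 x' ∧ E x' y.1
  | .inr y, .inl x => y.1 = x.1
  | .inr y, .inr y' => y.1 ∈ X ∧ E y.1 y'.1

/-- initial states after retiming -/
def sI : Set (SV X Y) := fun q => match q with
  | .inl x => x.1 ∈ I
  | .inr y => ∃ x ∈ X, x ∈ I ∧ E x y.1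

/-- final states after retiming -/
def sF : Set (SV X Y) := fun q => match q with
  | .inl x => ∃ f ∈ F, E x.1 f
  | .inr y => y.1 ∈ F

theorem shrink_sound (t : ℕ) : ∀ q : SV X Y, Rc (sE E X Y) (sI E I X Y) t q →
    (match q with
      | .inl x => Rc E I t x.1
      | .inr y => Rc E I (t + 1) y.1) := by
  induction t with
  | zero =>
    intro q hq
    match q, hq with
    | .inl x, hq => exact hq
    | .inr y, hq =>
      obtain ⟨x, -, h1, h2⟩ := hq
      exact ⟨x, h1, h2⟩
  | succ t ih =>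
    intro q hq
    obtain ⟨z, h1, h2⟩ := hq
    have h3 := ih z h1
    match z, q, h2, h3 with
    | .inl x, .inl x', h2, h3 => exact ⟨x.1, h3, h2⟩
    | .inl x, .inr y, h2, h3 =>
      obtain ⟨x', -, h4, h5⟩ := h2
      exact ⟨x', ⟨x.1, h3, h4⟩, h5⟩
    | .inr y, .inl x, h2, h3 =>
      have h4 : y.1 = x.1 := h2
      change Rc E I (t + 1) x.1
      rw [← h4]; exact h3
    | .inr y, .inr y', h2, h3 => exact ⟨y.1, h3, h2.2⟩

theorem shrink_complete (hY : ∀ x ∈ X, ∀ y, E x y → y ∈ Y) (t : ℕ) : ∀ x, Rc E I t x →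
    (∀ hx : x ∉ X, Rc (sE E X Y) (sI E I X Y) t (.inl ⟨x, hx⟩)) ∧
    (∀ (hx : x ∈ X) (y : V) (hy : E x y), Rc (sE E X Y) (sI E I X Y) t (.inr ⟨y, hY x hx y hy⟩)) := by
  classical
  induction t with
  | zero =>
    intro x hx
    exact ⟨fun _ => hx, fun h y hy => ⟨x, h, hx, hy⟩⟩
  | succ t ih =>
    rintro x ⟨z, h1, h2⟩
    by_cases hz : z ∈ X
    · have h3 := (ih z h1).2 hz x h2
      exact ⟨fun hx => ⟨_, h3, rfl⟩, fun hx y hy => ⟨_, h3, hx, hy⟩⟩
    · have h3 := (ih z h1).1 hz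
      exact ⟨fun hx => ⟨_, h3, h2⟩, fun hx y hy => ⟨_, h3, x, hx, h2, hy⟩⟩

theorem shrink (hY : ∀ x ∈ X, ∀ y, E x y → y ∈ Y) (t : ℕ) :
    Lg E I F (t + 1) ↔ Lg (sE E X Y) (sI E I X Y) (sF E F X Y) t := by
  classical
  constructor
  · rintro ⟨f, hf, x, h1, h2⟩
    by_cases hx : x ∈ X
    · exact ⟨_, hf, (shrink_complete E I X Y hY t x h1).2 hx f h2⟩
    · exact ⟨.inl ⟨x, hx⟩, ⟨f, hf, h2⟩, (shrink_complete E I X Y hY t x h1).1 hx⟩
  · rintro ⟨q, hq, h1⟩
    have h2 := shrink_sound E I X Y t q h1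
    match q, hq, h2 with
    | .inl x, hq, h2 =>
      obtain ⟨f, hf, h3⟩ := hq
      exact ⟨f, hf, x.1, h2, h3⟩
    | .inr y, hq, h2 => exact ⟨y.1, hq, h2⟩

end Shrink

/-- after removing a prefix the states can be permuted along edges -/
theorem exists_perm (n : ℕ) : ∀ (V : Type) [Fintype V] (E : V → V → Prop) (I F : Set V),
    Fintype.card V = n →
    ∃ (W : Type) (_ : Fintype W) (E' : W → W → Prop) (I' F' : Set W) (k : ℕ) (σ : Equiv.Perm W),
      k + Fintype.card W ≤ n ∧ (∀ x, E' x (σ x)) ∧ ∀ t, Lg E I F (t + k) ↔ Lg E' I' F' t := by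
  classical
  induction n using Nat.strong_induction_on with
  | _ n ih =>
  intro V _ E I F hV
  by_cases hall : ∀ S : Finset V, S.card ≤ (S.biUnion (fun x => univ.filter (fun y => E x y))).card
  · obtain ⟨f, hf, hf2⟩ := (Finset.all_card_le_biUnion_card_iff_exists_injective
      (fun x => univ.filter (fun y => E x y))).1 hall
    refine ⟨V, inferInstance, E, I, F, 0,
      Equiv.ofBijective f (Finite.injective_iff_bijective.1 hf), by omega, ?_, fun t => Iff.rfl⟩
    intro x
    exact (mem_filter.1 (hf2 x)).2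
  · push Not at hall
    obtain ⟨X, hX⟩ := hall
    set Y := X.biUnion (fun x => univ.filter (fun y => E x y)) with hY
    have hY2 : ∀ x ∈ X, ∀ y, E x y → y ∈ Y := fun x hx y hy =>
      mem_biUnion.2 ⟨x, hx, mem_filter.2 ⟨mem_univ _, hy⟩⟩
    have hc : Fintype.card (SV X Y) = n - X.card + Y.card := by
      rw [Fintype.card_sum, Fintype.card_coe, Fintype.card_subtype_compl, Fintype.card_coe, hV]
    have hXn : X.card ≤ n := hV ▸ card_le_univ X
    obtain ⟨W, hW, E', I', F', k, σ, h1, h2, h3⟩ := ih (n - X.card + Y.card) (by omega) (SV X Y)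
      (sE E X Y) (sI E I X Y) (sF E F X Y) hc
    refine ⟨W, hW, E', I', F', k + 1, σ, by omega, h2, ?_⟩
    intro t
    rw [← h3 t, ← add_assoc]
    exact shrink E I F X Y hY2 (t + k)

/-- few edges suffice if the states can be permuted along edges -/
theorem exists_sparse {W : Type} [Fintype W] (E : W → W → Prop) (I : Set W) (σ : Equiv.Perm W)
    (hσ : ∀ x, E x (σ x)) :
    ∃ δ : Finset (W × W), δ.card ≤ 2 * Fintype.card W ∧
      ∀ t x, Rc (fun a b => (a, b) ∈ δ) I t x ↔ Rc E I t x := by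
  classical
  have hshift : ∀ (d : W) (t t' : ℕ), t ≤ t' → Rc E I t ((σ ^ t) d) → Rc E I t' ((σ ^ t') d) := by
    intro d t t' htt h
    induction t', htt using Nat.le_induction with
    | base => exact h
    | succ t' _ ih =>
      refine ⟨_, ih, ?_⟩
      rw [pow_succ', Equiv.Perm.mul_apply]
      exact hσ _
  have he : ∀ d : W, ∃ e : W × W, E e.1 e.2 ∧ ∀ t, Rc E I (t + 1) ((σ ^ (t + 1)) d) →
      (∀ t' ≤ t, ¬ Rc E I t' ((σ ^ t') d)) → Rc E I t e.1 ∧ e.2 = (σ ^ (t + 1)) d := by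
    intro d
    by_cases h : ∃ t, Rc E I (t + 1) ((σ ^ (t + 1)) d) ∧ ∀ t' ≤ t, ¬ Rc E I t' ((σ ^ t') d)
    · obtain ⟨t, ⟨z, h1, h2⟩, h3⟩ := h
      refine ⟨(z, (σ ^ (t + 1)) d), h2, ?_⟩
      intro t2 h4 h5
      have h6 : t2 = t := by
        by_contra hne
        rcases Nat.lt_or_gt_of_ne hne with hlt | hlt
        · exact h3 (t2 + 1) hlt h4
        · exact h5 (t + 1) hlt ⟨z, h1, h2⟩
      subst h6
      exact ⟨h1, rfl⟩
    · push Not at h
      refine ⟨(d, σ d), hσ d, ?_⟩
      intro t h1 h2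
      obtain ⟨t', h3, h4⟩ := h t h1
      exact absurd h4 (h2 t' h3)
  choose e he1 he2 using he
  let δ : Finset (W × W) := univ.image (fun x => (x, σ x)) ∪ univ.image e
  refine ⟨δ, ?_, ?_⟩
  · refine (card_union_le _ _).trans ?_
    have h1 : (univ.image (fun x : W => (x, σ x))).card ≤ Fintype.card W :=
      card_image_le.trans_eq card_univ
    have h2 : (univ.image e).card ≤ Fintype.card W := card_image_le.trans_eq card_univ
    omega
  · have hsub : ∀ p : W × W, p ∈ δ → E p.1 p.2 := by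
      intro p hp
      rcases mem_union.1 hp with hp | hp
      · obtain ⟨x, -, rfl⟩ := mem_image.1 hp
        exact hσ x
      · obtain ⟨d, -, rfl⟩ := mem_image.1 hp
        exact he1 d
    intro t
    induction t with
    | zero => intro x; exact Iff.rfl
    | succ t ih =>
      intro x
      constructor
      · rintro ⟨z, h1, h2⟩
        exact ⟨z, (ih z).1 h1, hsub _ h2⟩
      · intro hx
        obtain ⟨d, rfl⟩ : ∃ d, x = (σ ^ (t + 1)) d := ⟨(σ ^ (t + 1))⁻¹ x, by simp⟩
        by_cases hmin : ∀ t' ≤ t, ¬ Rc E I t' ((σ ^ t') d)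
        · obtain ⟨h1, h2⟩ := he2 d t hx hmin
          refine ⟨(e d).1, (ih _).2 h1, ?_⟩
          rw [← h2]
          exact mem_union_right _ (mem_image_of_mem _ (mem_univ d))
        · push Not at hmin
          obtain ⟨t', h1, h2⟩ := hmin
          refine ⟨(σ ^ t) d, (ih _).2 (hshift d t' t h1 h2), ?_⟩
          rw [pow_succ', Equiv.Perm.mul_apply]
          exact mem_union_left _ (mem_image_of_mem (fun x => (x, σ x)) (mem_univ ((σ ^ t) d)))

end Pool.Agent.Work.MP_91c91a_lc.Un
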